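import Pool.Agent.J4H12.MX.Stm2

/-!
# MP_c2f9c6_al, project MX of helper12: with max every closed subgroup is finitely generated
-/

set_option autoImplicit false

universe u

namespace Pool.Agent.J4H72.MX

open Pool.Agent.J4H12.MX

theorem t_MFG : S_MFG.{u} := by
  intro G _ _ _ _ _ B hB H hH hHB
  classical
  by_contra hcon
  unfold TFG at hcon
  push Not at hcon
  have hstep : ∀ S : {S : Finset G // (S : Set G) ⊆ H}, ∃ x : G, x ∈ H ∧
      x ∉ (Subgroup.closure ((S : Finset G) : Set G)).topologicalClosure := by
    rintro ⟨S, hS⟩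
    by_contra h
    push Not at h
    apply hcon S
    apply Set.Subset.antisymm
    · intro x hx
      exact h x hx
    · exact Subgroup.topologicalClosure_minimal _ ((Subgroup.closure_le H).2 hS) hH
  choose nx hnx1 hnx2 using hstep
  let T : ℕ → {S : Finset G // (S : Set G) ⊆ H} := fun n =>
    Nat.rec ⟨∅, by simp⟩ (fun _ S => ⟨insert (nx S) S.1, by
      intro y hy
      rw [Finset.coe_insert, Set.mem_insert_iff] at hy
      rcases hy with rfl | hy
      · exact hnx1 S
      · exact S.2 hy⟩) n
  have hT : ∀ n, (T (n + 1)).1 = insert (nx (T n)) (T n).1 := fun n => rfl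
  let f : ℕ → Subgroup G := fun n => (Subgroup.closure ((T n).1 : Set G)).topologicalClosure
  have hmono : Monotone f := by
    apply monotone_nat_of_le_succ
    intro n
    apply Subgroup.topologicalClosure_mono
    apply Subgroup.closure_mono
    rw [hT]
    simp
  have hle : ∀ n, f n ≤ H := fun n =>
    Subgroup.topologicalClosure_minimal _ ((Subgroup.closure_le H).2 (T n).2) hH
  obtain ⟨n, hn⟩ := hB f hmono (fun n => Subgroup.isClosed_topologicalClosure _)
    (fun n => (hle n).trans hHB)
  have h1 := hn (n + 1) (Nat.le_succ n)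
  have h2 : nx (T n) ∈ f (n + 1) := by
    apply Subgroup.le_topologicalClosure
    apply Subgroup.subset_closure
    rw [hT]
    simp
  rw [h1] at h2
  exact hnx2 (T n) h2

end Pool.Agent.J4H72.MX
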